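import Pool.Agent.H20.PRL.LCC
import Pool.Agent.H64.PRL.HPF

/-!
# The Poonen-Rains law, module LBB: the lattice of a class of type `(1, 0)`
-/

set_option autoImplicit false

namespace Pool.PRL

open Polynomial Matrix Pool.AVR Pool.AVS Pool.RZ

namespace LBB

section Mat

variable {K : Type} [Field K]

/-- The change of basis. -/
def kap (π v0 v1 u0 u1 : K) : Matrix (Fin 3) (Fin 3) K :=
  !![1, 0, 0; 0, v0 / π, u0; 0, v1 / π, u1]

lemma kap_det (π v0 v1 u0 u1 : K) : (kap π v0 v1 u0 u1).det = (v0 * u1 - v1 * u0) / π := by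
  rw [kap, Matrix.det_fin_three]
  simp
  ring

lemma kap_gram {π : K} (hπ : π ≠ 0) (v0 v1 u0 u1 a c1 c2 x00 x01 x11 : K)
    (G : Matrix (Fin 3) (Fin 3) K)
    (h00 : G 0 0 = a) (h01 : G 0 1 = π * c1) (h02 : G 0 2 = π * c2) (h10 : G 1 0 = π * c1)
    (h20 : G 2 0 = π * c2) (h11 : G 1 1 = π * x00) (h12 : G 1 2 = π * x01)
    (h21 : G 2 1 = π * x01) (h22 : G 2 2 = π * x11) :
    (kap π v0 v1 u0 u1)ᵀ * G * kap π v0 v1 u0 u1 =
      !![a, c1 * v0 + c2 * v1, π * (c1 * u0 + c2 * u1);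
        c1 * v0 + c2 * v1, (x00 * v0 ^ 2 + 2 * x01 * (v0 * v1) + x11 * v1 ^ 2) / π,
          x00 * (v0 * u0) + x01 * (v0 * u1 + v1 * u0) + x11 * (v1 * u1);
        π * (c1 * u0 + c2 * u1), x00 * (v0 * u0) + x01 * (v0 * u1 + v1 * u0) + x11 * (v1 * u1),
          π * (x00 * u0 ^ 2 + 2 * x01 * (u0 * u1) + x11 * u1 ^ 2)] := by
  ext i j
  fin_cases i <;> fin_cases j <;>
    simp [kap, Matrix.mul_apply, Fin.sum_univ_three, h00, h01, h02, h10, h20, h11, h12, h21,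
      h22] <;> field_simp <;> ring

end Mat

variable {F : Type} [Field F]

lemma dvd2_iff {P : F[X]} (hP : Irreducible P) (p : F[X]) :
    rf p / rf P ^ 2 ∈ IP P ↔ P ^ 2 ∣ p :=
  (AVS.POL.part3 P p hP).2 2

lemma gr1_symm {K : Type} [Field K] (a b c : K) (h : K[X]) :
    (gr1 a b c h)ᵀ = gr1 a b c h := by
  ext i j
  rw [Matrix.transpose_apply]
  show tau a b c (X * (X ^ (j : ℕ) * X ^ (i : ℕ) * h)) =
    tau a b c (X * (X ^ (i : ℕ) * X ^ (j : ℕ) * h))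
  rw [mul_comm (X ^ (j : ℕ)) (X ^ (i : ℕ))]

/-- The Gram matrices over the polynomials. -/
lemma core {P : F[X]} (hP : Irreducible P) (G B : Matrix (Fin 3) (Fin 3) F[X])
    (v0 v1 u0 u1 δ : F[X]) (hδ : ¬ P ∣ δ)
    (a c1 c2 x00 x01 x11 a' c1' c2' y00 y01 y11 : F[X])
    (h00 : G 0 0 = a) (h01 : G 0 1 = P * c1) (h02 : G 0 2 = P * c2) (h10 : G 1 0 = P * c1)
    (h20 : G 2 0 = P * c2) (h11 : G 1 1 = P * x00) (h12 : G 1 2 = P * x01)
    (h21 : G 2 1 = P * x01) (h22 : G 2 2 = P * x11)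
    (k00 : B 0 0 = a') (k01 : B 0 1 = P * c1') (k02 : B 0 2 = P * c2') (k10 : B 1 0 = P * c1')
    (k20 : B 2 0 = P * c2') (k11 : B 1 1 = P * y00) (k12 : B 1 2 = P * y01)
    (k21 : B 2 1 = P * y01) (k22 : B 2 2 = P * y11)
    (ha : ¬ P ∣ a)
    (hvv : P ∣ x00 * v0 ^ 2 + 2 * x01 * (v0 * v1) + x11 * v1 ^ 2)
    (huu : P ∣ x00 * u0 ^ 2 + 2 * x01 * (u0 * u1) + x11 * u1 ^ 2)
    (hvu : ¬ P ∣ x00 * (v0 * u0) + x01 * (v0 * u1 + v1 * u0) + x11 * (v1 * u1))
    (hdet : v0 * u1 - v1 * u0 ≠ 0)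
    (hN : ¬ P ∣ y00 * v0 ^ 2 + 2 * y01 * (v0 * v1) + y11 * v1 ^ 2)
    (hsq : SqM P (δ * (y00 * v0 ^ 2 + 2 * y01 * (v0 * v1) + y11 * v1 ^ 2))) :
    ∃ κ : Matrix (Fin 3) (Fin 3) (RatFunc F), κ.det ≠ 0 ∧
      GI (IP P) (κᵀ * G.map (algebraMap F[X] (RatFunc F)) * κ) ∧
      MI (IP P) (rf (P * δ) • (κᵀ * B.map (algebraMap F[X] (RatFunc F)) * κ)) ∧
      BShK P (κᵀ * G.map (algebraMap F[X] (RatFunc F)) * κ)
        (rf (P * δ) • (κᵀ * B.map (algebraMap F[X] (RatFunc F)) * κ)) := by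
  have hP0 : rf P ≠ 0 := RatFunc.algebraMap_ne_zero hP.ne_zero
  obtain ⟨t, ht⟩ := hvv
  obtain ⟨t', ht'⟩ := huu
  set m := x00 * (v0 * u0) + x01 * (v0 * u1 + v1 * u0) + x11 * (v1 * u1) with hm
  set n := y00 * v0 ^ 2 + 2 * y01 * (v0 * v1) + y11 * v1 ^ 2 with hn
  set n' := y00 * (v0 * u0) + y01 * (v0 * u1 + v1 * u0) + y11 * (v1 * u1) with hn'
  obtain ⟨n2, hn2⟩ : ∃ n2, n2 = y00 * u0 ^ 2 + 2 * y01 * (u0 * u1) + y11 * u1 ^ 2 := ⟨_, rfl⟩
  -- the matrices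
  have e1 : (kap (rf P) (rf v0) (rf v1) (rf u0) (rf u1))ᵀ * G.map (algebraMap F[X] (RatFunc F)) *
      kap (rf P) (rf v0) (rf v1) (rf u0) (rf u1) =
      (!![a, c1 * v0 + c2 * v1, P * (c1 * u0 + c2 * u1);
        c1 * v0 + c2 * v1, t, m; P * (c1 * u0 + c2 * u1), m, P ^ 2 * t'] :
          Matrix (Fin 3) (Fin 3) F[X]).map (algebraMap F[X] (RatFunc F)) := by
    rw [kap_gram hP0 (rf v0) (rf v1) (rf u0) (rf u1) (rf a) (rf c1) (rf c2) (rf x00) (rf x01)
      (rf x11) _ (by rw [Matrix.map_apply, h00]) (by rw [Matrix.map_apply, h01, map_mul])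
      (by rw [Matrix.map_apply, h02, map_mul]) (by rw [Matrix.map_apply, h10, map_mul])
      (by rw [Matrix.map_apply, h20, map_mul]) (by rw [Matrix.map_apply, h11, map_mul])
      (by rw [Matrix.map_apply, h12, map_mul]) (by rw [Matrix.map_apply, h21, map_mul])
      (by rw [Matrix.map_apply, h22, map_mul])]
    have i1 := congrArg (algebraMap F[X] (RatFunc F)) ht
    have i2 := congrArg (algebraMap F[X] (RatFunc F)) ht'
    have i3 := congrArg (algebraMap F[X] (RatFunc F)) hm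
    simp only [map_add, map_mul, map_pow, map_ofNat] at i1 i2 i3
    ext i j
    fin_cases i <;> fin_cases j <;> simp
    · rw [i1]
      field_simp
    · rw [i3]
    · rw [i3]
    · rw [i2]
      ring
  have e2 : rf (P * δ) • ((kap (rf P) (rf v0) (rf v1) (rf u0) (rf u1))ᵀ *
      B.map (algebraMap F[X] (RatFunc F)) *
      kap (rf P) (rf v0) (rf v1) (rf u0) (rf u1)) =
      (!![P * δ * a', P * δ * (c1' * v0 + c2' * v1), P ^ 2 * δ * (c1' * u0 + c2' * u1);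
        P * δ * (c1' * v0 + c2' * v1), δ * n, P * δ * n';
        P ^ 2 * δ * (c1' * u0 + c2' * u1), P * δ * n',
          P ^ 2 * δ * n2] :
          Matrix (Fin 3) (Fin 3) F[X]).map (algebraMap F[X] (RatFunc F)) := by
    rw [kap_gram hP0 (rf v0) (rf v1) (rf u0) (rf u1) (rf a') (rf c1') (rf c2') (rf y00) (rf y01)
      (rf y11) _ (by rw [Matrix.map_apply, k00]) (by rw [Matrix.map_apply, k01, map_mul])
      (by rw [Matrix.map_apply, k02, map_mul]) (by rw [Matrix.map_apply, k10, map_mul])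
      (by rw [Matrix.map_apply, k20, map_mul]) (by rw [Matrix.map_apply, k11, map_mul])
      (by rw [Matrix.map_apply, k12, map_mul]) (by rw [Matrix.map_apply, k21, map_mul])
      (by rw [Matrix.map_apply, k22, map_mul])]
    have i1 := congrArg (algebraMap F[X] (RatFunc F)) hn
    have i2 := congrArg (algebraMap F[X] (RatFunc F)) hn'
    have i3 := congrArg (algebraMap F[X] (RatFunc F)) hn2
    simp only [map_add, map_mul, map_pow, map_ofNat] at i1 i2 i3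
    ext i j
    fin_cases i <;> fin_cases j <;> simp [i1, i2, i3] <;> field_simp
  set G' : Matrix (Fin 3) (Fin 3) F[X] := !![a, c1 * v0 + c2 * v1, P * (c1 * u0 + c2 * u1);
        c1 * v0 + c2 * v1, t, m; P * (c1 * u0 + c2 * u1), m, P ^ 2 * t'] with hG'
  set B' : Matrix (Fin 3) (Fin 3) F[X] :=
      !![P * δ * a', P * δ * (c1' * v0 + c2' * v1), P ^ 2 * δ * (c1' * u0 + c2' * u1);
        P * δ * (c1' * v0 + c2' * v1), δ * n, P * δ * n';
        P ^ 2 * δ * (c1' * u0 + c2' * u1), P * δ * n', P ^ 2 * δ * n2] with hB'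
  refine ⟨kap (rf P) (rf v0) (rf v1) (rf u0) (rf u1), ?_, ?_, ?_, ?_⟩
  · rw [kap_det]
    refine div_ne_zero ?_ hP0
    have i1 : rf v0 * rf u1 - rf v1 * rf u0 = rf (v0 * u1 - v1 * u0) := by
      simp only [rf, map_sub, map_mul]
    rw [i1]
    exact RatFunc.algebraMap_ne_zero hdet
  · rw [e1]
    refine ⟨fun i j => USE.IP_rf hP (G' i j), ?_⟩
    have i1 : (G'.map (algebraMap F[X] (RatFunc F))).det = rf G'.det :=
      (RingHom.map_det (algebraMap F[X] (RatFunc F)) G').symm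
    rw [i1]
    refine USE.UI_rf hP ?_
    have i2 : G'.det = -(a * m ^ 2) + P * (a * (P * t * t') -
        (c1 * v0 + c2 * v1) * ((c1 * v0 + c2 * v1) * (P * t') - m * (c1 * u0 + c2 * u1)) +
        (c1 * u0 + c2 * u1) * ((c1 * v0 + c2 * v1) * m - t * (P * (c1 * u0 + c2 * u1)))) := by
      rw [hG', Matrix.det_fin_three]
      simp
      ring
    rw [i2]
    intro i3
    have i4 : P ∣ a * m ^ 2 := by
      obtain ⟨z, hz⟩ := i3
      refine ⟨(a * (P * t * t') -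
        (c1 * v0 + c2 * v1) * ((c1 * v0 + c2 * v1) * (P * t') - m * (c1 * u0 + c2 * u1)) +
        (c1 * u0 + c2 * u1) * ((c1 * v0 + c2 * v1) * m - t * (P * (c1 * u0 + c2 * u1)))) - z, ?_⟩
      linear_combination -hz
    rcases hP.prime.dvd_or_dvd i4 with i5 | i5
    · exact ha i5
    · exact hvu (hP.prime.dvd_of_dvd_pow i5)
  · rw [e2]
    exact fun i j => USE.IP_rf hP (B' i j)
  · rw [e1, e2]
    -- the inverse of `m`
    obtain ⟨r, s, hrs⟩ : IsCoprime P m := hP.coprime_iff_not_dvd.2 hvu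
    obtain ⟨w, hw⟩ := hsq
    have hGz : ∀ i, (G'.map (algebraMap F[X] (RatFunc F)) *ᵥ ![0, 0, 1]) i = rf (G' i 2) := by
      intro i
      simp [Matrix.mulVec, dotProduct, Fin.sum_univ_three]
    have hBz : ∀ i, (B'.map (algebraMap F[X] (RatFunc F)) *ᵥ ![0, 0, 1]) i = rf (B' i 2) := by
      intro i
      simp [Matrix.mulVec, dotProduct, Fin.sum_univ_three]
    refine ⟨![0, 0, 1], rf (δ * n' * s), rf (w * s), ?_, ⟨2, ?_⟩, USE.IP_rf hP _,
      USE.IP_rf hP _, ?_, ?_, ?_, ?_⟩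
    · intro i
      have i0 : (0 : RatFunc F) ∈ IP P := by
        have := USE.IP_rf hP 0
        rwa [rf, map_zero] at this
      have i1 : (1 : RatFunc F) ∈ IP P := by
        have := USE.IP_rf hP 1
        rwa [rf, map_one] at this
      fin_cases i
      · exact i0
      · exact i0
      · exact i1
    · intro i1
      have i2 : (![0, 0, 1] : Fin 3 → RatFunc F) 2 = rf 1 := by
        rw [rf, map_one]
        rfl
      rw [i2] at i1
      exact hP.not_isUnit (isUnit_of_dvd_one ((LCC.dvd_iff hP 1).1 i1))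
    · intro i1
      have i2 := (LCC.dvd_iff hP _).1 i1
      rcases hP.prime.dvd_or_dvd i2 with i3 | i3
      · have i4 : P ∣ δ * n := by
          obtain ⟨z, hz⟩ := hw
          obtain ⟨z', hz'⟩ := i3
          exact ⟨z + z' * w, by linear_combination hz + w * hz'⟩
        rcases hP.prime.dvd_or_dvd i4 with i5 | i5
        · exact hδ i5
        · exact hN i5
      · refine hP.not_isUnit (isUnit_of_dvd_one ?_)
        rw [← hrs]
        exact dvd_add (Dvd.intro_left r rfl) (i3.mul_right m)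
    · have i1 : bil (G'.map (algebraMap F[X] (RatFunc F))) ![0, 0, 1] ![0, 0, 1] =
          rf (G' 2 2) := by
        unfold bil
        rw [dotProduct, Fin.sum_univ_three, hGz, hGz, hGz]
        simp
      rw [i1]
      exact (dvd2_iff hP _).2 ⟨t', rfl⟩
    · intro i
      rw [hGz, hBz]
      have i1 : rf (B' i 2) - rf P * rf (δ * n' * s) * rf (G' i 2) =
          rf (B' i 2 - P * (δ * n' * s) * G' i 2) := by
        simp only [rf, map_sub, map_mul]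
      rw [i1]
      refine (dvd2_iff hP _).2 ?_
      fin_cases i
      · show P ^ 2 ∣ P ^ 2 * δ * (c1' * u0 + c2' * u1) -
          P * (δ * n' * s) * (P * (c1 * u0 + c2 * u1))
        exact ⟨δ * (c1' * u0 + c2' * u1) - δ * n' * s * (c1 * u0 + c2 * u1), by ring⟩
      · show P ^ 2 ∣ P * δ * n' - P * (δ * n' * s) * m
        exact ⟨δ * n' * r, by linear_combination (-(P * δ * n')) * hrs⟩
      · show P ^ 2 ∣ P ^ 2 * δ * n2 - P * (δ * n' * s) * (P ^ 2 * t')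
        exact ⟨δ * n2 - P * (δ * n' * s) * t', by ring⟩
    · intro i j
      rw [hGz, hGz]
      have i1 : (B'.map (algebraMap F[X] (RatFunc F))) i j -
          rf (w * s) ^ 2 * (rf (G' i 2) * rf (G' j 2)) =
          rf (B' i j - (w * s) ^ 2 * (G' i 2 * G' j 2)) := by
        rw [Matrix.map_apply]
        simp only [rf, map_sub, map_mul, map_pow]
      rw [i1]
      refine (LCC.dvd_iff hP _).2 ?_
      have hm1 : P ∣ δ * n - (w * s) ^ 2 * (m * m) := by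
        obtain ⟨z, hz⟩ := hw
        refine ⟨z + w ^ 2 * r * (1 + s * m), ?_⟩
        linear_combination hz - w ^ 2 * (1 + s * m) * hrs
      fin_cases i <;> fin_cases j
      · show P ∣ P * δ * a' - (w * s) ^ 2 * (P * (c1 * u0 + c2 * u1) * (P * (c1 * u0 + c2 * u1)))
        exact ⟨δ * a' - (w * s) ^ 2 * ((c1 * u0 + c2 * u1) * (P * (c1 * u0 + c2 * u1))), by ring⟩
      · show P ∣ P * δ * (c1' * v0 + c2' * v1) - (w * s) ^ 2 * (P * (c1 * u0 + c2 * u1) * m)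
        exact ⟨δ * (c1' * v0 + c2' * v1) - (w * s) ^ 2 * ((c1 * u0 + c2 * u1) * m), by ring⟩
      · show P ∣ P ^ 2 * δ * (c1' * u0 + c2' * u1) -
          (w * s) ^ 2 * (P * (c1 * u0 + c2 * u1) * (P ^ 2 * t'))
        exact ⟨P * δ * (c1' * u0 + c2' * u1) - (w * s) ^ 2 * ((c1 * u0 + c2 * u1) * (P ^ 2 * t')),
          by ring⟩
      · show P ∣ P * δ * (c1' * v0 + c2' * v1) - (w * s) ^ 2 * (m * (P * (c1 * u0 + c2 * u1)))
        exact ⟨δ * (c1' * v0 + c2' * v1) - (w * s) ^ 2 * ((c1 * u0 + c2 * u1) * m), by ring⟩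
      · exact hm1
      · show P ∣ P * δ * n' - (w * s) ^ 2 * (m * (P ^ 2 * t'))
        exact ⟨δ * n' - (w * s) ^ 2 * (m * (P * t')), by ring⟩
      · show P ∣ P ^ 2 * δ * (c1' * u0 + c2' * u1) -
          (w * s) ^ 2 * (P ^ 2 * t' * (P * (c1 * u0 + c2 * u1)))
        exact ⟨P * δ * (c1' * u0 + c2' * u1) - (w * s) ^ 2 * ((c1 * u0 + c2 * u1) * (P ^ 2 * t')),
          by ring⟩
      · show P ∣ P * δ * n' - (w * s) ^ 2 * (P ^ 2 * t' * m)
        exact ⟨δ * n' - (w * s) ^ 2 * (m * (P * t')), by ring⟩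
      · show P ∣ P ^ 2 * δ * n2 - (w * s) ^ 2 * (P ^ 2 * t' * (P ^ 2 * t'))
        exact ⟨P * δ * n2 - (w * s) ^ 2 * (P * t' * (P ^ 2 * t')), by ring⟩

lemma logic {a b c ab ca cb : Prop} (h1 : ab ↔ (a ↔ b)) (h2 : ca ↔ (c ↔ a))
    (h3 : cb ↔ (c ↔ b)) (h4 : ¬ ab) (h5 : ¬ ca) : cb := by
  tauto

/-- The square classes. -/
lemma sq_class {P : F[X]} (hP : Irreducible P) {ν₁ ν νq pe Q w : F[X]} (h1 : ¬ P ∣ ν₁)
    (h2 : SqM P ν₁) (h3 : P ∣ ν - pe * νq) (h4 : ¬ P ∣ pe) (h5 : ν₁ * ν = w ^ 2)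
    (h6 : SqM P (pe * Q)) : SqM P (νq * Q) := by
  refine LCC.sq_class hP h1 h2 (ν := ν) ?_ h4 h5 h6
  rwa [mul_comm νq pe]

end LBB

theorem lbb_thm (hQFP : QFPStmt) (hPLP : PLPStmt) (hSPU : SPUStmt) : LBBStmt := by
  intro F _ _ h2 P f hPm hP h hc hN hT d hd hd2
  obtain ⟨e, β, γ, s, p, hSpl, hdv, hUn, hty⟩ := hT
  have hv : (((1, 0) : Ty).1).val = 1 := rfl
  rw [hv, pow_one] at hdv hty
  have hsq : SqM P (p.eval e * (e ^ 2 + β * e + γ)) := hty.1 rfl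
  obtain ⟨-, hS⟩ := hSPU F P f hPm hP
  obtain ⟨-, -, hSe, -, ν₁, hν₁, hν₁P, hν₁S⟩ := hS e β γ hSpl
  obtain ⟨M, N, νq, hMN, hνq, -, ⟨ν, hν, hνP⟩, hcase⟩ := hQFP F h2 P f hPm hP e β γ hSpl p hUn
  obtain ⟨w, hw⟩ := LCC.norm_sq hP hN hdv hν₁ hν
  have hsplit : ∃ v v' : Fin 2 → F[X],
        P ∣ bil2 M v v ∧ P ∣ bil2 M v' v' ∧ ¬ P ∣ bil2 M v v' ∧ ¬ P ∣ v 0 * v' 1 - v 1 * v' 0 ∧
        ¬ P ∣ bil2 N v v ∧ ¬ P ∣ bil2 N v' v' ∧ ¬ SqM P (bil2 N v v * bil2 N v' v') := by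
    rcases hcase with hcase | hcase
    · exact absurd (LBB.sq_class hP hν₁P hν₁S hνP (hSe p hUn) hw hsq) hcase.1
    · exact hcase.2
  obtain ⟨g, G, B, hdet, hG, hB, hG00, hG0, hGij⟩ :=
    hPLP F h2 P f hPm hP e β γ hSpl h s p hc hUn hdv
  obtain ⟨δ, rfl⟩ := hd
  have hδ : ¬ P ∣ δ := by
    rintro ⟨z, rfl⟩
    exact hd2 ⟨z, by ring⟩
  -- symmetry
  have hM10 : M 1 0 = M 0 1 := by
    apply RatFunc.algebraMap_injective F
    have e1 := (hMN 1 0).1
    have e2 := (hMN 0 1).1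
    exact e1.trans e2.symm
  have hN10 : N 1 0 = N 0 1 := by
    apply RatFunc.algebraMap_injective F
    have e1 := (hMN 1 0).2
    have e2 := (hMN 0 1).2
    exact e1.trans e2.symm
  have hGs : ∀ i j, G i j = G j i := by
    intro i j
    apply RatFunc.algebraMap_injective F
    have e1 : (gᵀ * g0 f h * g)ᵀ = gᵀ * g0 f h * g := by
      rw [Matrix.transpose_mul, Matrix.transpose_mul, Matrix.transpose_transpose,
        TYQ.gr0_symm, Matrix.mul_assoc]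
    rw [hG] at e1
    exact (congrFun (congrFun e1 i) j).symm
  have hBs : ∀ i j, B i j = B j i := by
    intro i j
    apply RatFunc.algebraMap_injective F
    have e1 : (gᵀ * g1 f h * g)ᵀ = gᵀ * g1 f h * g := by
      rw [Matrix.transpose_mul, Matrix.transpose_mul, Matrix.transpose_transpose,
        LBB.gr1_symm, Matrix.mul_assoc]
    rw [hB] at e1
    exact (congrFun (congrFun e1 i) j).symm
  -- the entries modulo `P`
  have hMN' : ∀ i j : Fin 2, ∃ x y : F[X], G i.succ j.succ = P * x ∧ B i.succ j.succ = P * y ∧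
      P ∣ x - M i j ∧ P ∣ y - N i j := by
    intro i j
    obtain ⟨x, y, hx, hy, hx', hy'⟩ := hGij i j
    refine ⟨x, y, hx, hy, ?_, ?_⟩
    · rw [← (hMN i j).1] at hx'
      have e1 : rf x - rf (M i j) = rf (x - M i j) :=
        (map_sub (algebraMap F[X] (RatFunc F)) _ _).symm
      rw [e1] at hx'
      exact (LCC.dvd_iff hP _).1 hx'
    · rw [← (hMN i j).2] at hy'
      have e1 : rf y - rf (N i j) = rf (y - N i j) :=
        (map_sub (algebraMap F[X] (RatFunc F)) _ _).symm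
      rw [e1] at hy'
      exact (LCC.dvd_iff hP _).1 hy'
  obtain ⟨x00, y00, gx00, gy00, mx00, my00⟩ := hMN' 0 0
  obtain ⟨x01, y01, gx01, gy01, mx01, my01⟩ := hMN' 0 1
  obtain ⟨x11, y11, gx11, gy11, mx11, my11⟩ := hMN' 1 1
  obtain ⟨⟨c1, hc1⟩, ⟨c1', hc1'⟩⟩ := hG0 0
  obtain ⟨⟨c2, hc2⟩, ⟨c2', hc2'⟩⟩ := hG0 1
  -- the values
  have bilM : ∀ v u : Fin 2 → F[X], P ∣ (x00 * (v 0 * u 0) + x01 * (v 0 * u 1 + v 1 * u 0) +
      x11 * (v 1 * u 1)) - bil2 M v u := by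
    intro v u
    have k5 : bil2 M v u = M 0 0 * (v 0 * u 0) + M 0 1 * (v 0 * u 1 + v 1 * u 0) +
        M 1 1 * (v 1 * u 1) := by
      unfold bil2
      simp only [Matrix.mulVec, dotProduct, Fin.sum_univ_two, hM10]
      ring
    rw [k5]
    obtain ⟨z0, hz0⟩ := mx00
    obtain ⟨z1, hz1⟩ := mx01
    obtain ⟨z2, hz2⟩ := mx11
    refine ⟨z0 * (v 0 * u 0) + z1 * (v 0 * u 1 + v 1 * u 0) + z2 * (v 1 * u 1), ?_⟩
    linear_combination (v 0 * u 0) * hz0 + (v 0 * u 1 + v 1 * u 0) * hz1 + (v 1 * u 1) * hz2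
  have bilN : ∀ v u : Fin 2 → F[X], P ∣ (y00 * (v 0 * u 0) + y01 * (v 0 * u 1 + v 1 * u 0) +
      y11 * (v 1 * u 1)) - bil2 N v u := by
    intro v u
    have k5 : bil2 N v u = N 0 0 * (v 0 * u 0) + N 0 1 * (v 0 * u 1 + v 1 * u 0) +
        N 1 1 * (v 1 * u 1) := by
      unfold bil2
      simp only [Matrix.mulVec, dotProduct, Fin.sum_univ_two, hN10]
      ring
    rw [k5]
    obtain ⟨z0, hz0⟩ := my00
    obtain ⟨z1, hz1⟩ := my01
    obtain ⟨z2, hz2⟩ := my11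
    refine ⟨z0 * (v 0 * u 0) + z1 * (v 0 * u 1 + v 1 * u 0) + z2 * (v 1 * u 1), ?_⟩
    linear_combination (v 0 * u 0) * hz0 + (v 0 * u 1 + v 1 * u 0) * hz1 + (v 1 * u 1) * hz2
  -- the good choice of the first vector
  have key : ∀ v u : Fin 2 → F[X], P ∣ bil2 M v v → P ∣ bil2 M u u → ¬ P ∣ bil2 M v u →
      ¬ P ∣ v 0 * u 1 - v 1 * u 0 → ¬ P ∣ bil2 N v v → SqM P (δ * bil2 N v v) →
      ∃ g : Matrix (Fin 3) (Fin 3) (RatFunc F), g.det ≠ 0 ∧ GI (IP P) (gᵀ * g0 f h * g) ∧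
        MI (IP P) (rf (P * δ) • (gᵀ * g1 f h * g)) ∧
        BShK P (gᵀ * g0 f h * g) (rf (P * δ) • (gᵀ * g1 f h * g)) := by
    intro v u hvv huu hvu hdt hNv hsqv
    obtain ⟨κ, k1, k2, k3, k4⟩ := LBB.core hP G B (v 0) (v 1) (u 0) (u 1) δ hδ (G 0 0) c1 c2 x00
      x01 x11 (B 0 0) c1' c2' y00 y01 y11 rfl hc1 hc2 ((hGs 1 0).trans hc1)
      ((hGs 2 0).trans hc2) gx00 gx01 ((hGs 2 1).trans gx01) gx11 rfl hc1' hc2'
      ((hBs 1 0).trans hc1') ((hBs 2 0).trans hc2') gy00 gy01 ((hBs 2 1).trans gy01) gy11 hG00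
      (by
        have := (dvd_iff_dvd_of_dvd_sub (bilM v v)).2 hvv
        have e1 : x00 * v 0 ^ 2 + 2 * x01 * (v 0 * v 1) + x11 * v 1 ^ 2 =
          x00 * (v 0 * v 0) + x01 * (v 0 * v 1 + v 1 * v 0) + x11 * (v 1 * v 1) := by ring
        rwa [e1])
      (by
        have := (dvd_iff_dvd_of_dvd_sub (bilM u u)).2 huu
        have e1 : x00 * u 0 ^ 2 + 2 * x01 * (u 0 * u 1) + x11 * u 1 ^ 2 =
          x00 * (u 0 * u 0) + x01 * (u 0 * u 1 + u 1 * u 0) + x11 * (u 1 * u 1) := by ring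
        rwa [e1])
      (fun h' => hvu ((dvd_iff_dvd_of_dvd_sub (bilM v u)).1 h'))
      (fun h' => hdt (h' ▸ dvd_zero P))
      (by
        intro h'
        refine hNv ((dvd_iff_dvd_of_dvd_sub (bilN v v)).1 ?_)
        have e1 : y00 * v 0 ^ 2 + 2 * y01 * (v 0 * v 1) + y11 * v 1 ^ 2 =
          y00 * (v 0 * v 0) + y01 * (v 0 * v 1 + v 1 * v 0) + y11 * (v 1 * v 1) := by ring
        rwa [← e1])
      (by
        obtain ⟨z, hz⟩ := hsqv
        obtain ⟨z', hz'⟩ := bilN v v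
        refine ⟨z, ?_⟩
        obtain ⟨z'', hz''⟩ := hz
        exact ⟨z'' + δ * z', by linear_combination hz'' + δ * hz'⟩)
    have tr : ∀ A : Matrix (Fin 3) (Fin 3) (RatFunc F), (g * κ)ᵀ * A * (g * κ) =
        κᵀ * (gᵀ * A * g) * κ := by
      intro A
      rw [Matrix.transpose_mul]
      simp only [Matrix.mul_assoc]
    refine ⟨g * κ, ?_, ?_, ?_, ?_⟩
    · rw [Matrix.det_mul]
      exact mul_ne_zero hdet k1
    · rw [tr, hG]
      exact k2
    · rw [tr, hB]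
      exact k3
    · rw [tr, tr, hG, hB]
      exact k4
  obtain ⟨v, v', a1, a2, a3, a4, a5, a6, a7⟩ := hsplit
  by_cases hs : SqM P (δ * bil2 N v v)
  · exact key v v' a1 a2 a3 a4 a5 hs
  · refine key v' v a2 a1 ?_ ?_ a6 ?_
    · have e1 : bil2 M v' v = bil2 M v v' := by
        unfold bil2
        simp only [Matrix.mulVec, dotProduct, Fin.sum_univ_two, hM10]
        ring
      rwa [e1]
    · intro h'
      refine a4 ?_
      have e1 : v 0 * v' 1 - v 1 * v' 0 = -(v' 0 * v 1 - v' 1 * v 0) := by ring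
      rw [e1]
      exact (dvd_neg).2 h'
    · exact LBB.logic (HPF.sqM_mul hP a5 a6) (HPF.sqM_mul hP hδ a5) (HPF.sqM_mul hP hδ a6) a7 hs

end Pool.PRL
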